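import Pool.Agent.Helper78.DC.M_CR

/-! Decision by an E2 function of a power. -/

set_option autoImplicit false

namespace Pool.Agent.Helper78.DC

open Pool.Agent.Helper73.DC

/-- multiplication by `|w| + 2` -/
theorem run_mul {α : Type} [Fintype α] (w : List α) (B i j : ℕ) (hij : i ≠ j) (s : ℕ → ℕ)
    (hB : s j + s i * (w.length + 2) ≤ B) :
    Run w B (Prog.loop i (Prog.seq (Prog.dec i) (Prog.seq (Prog.len j)
      (Prog.seq (Prog.inc j) (Prog.inc j))))) s
      (Function.update (Function.update s i 0) j (s j + s i * (w.length + 2))) := by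
  obtain ⟨n, hn⟩ : ∃ n, n = s i := ⟨_, rfl⟩
  induction n generalizing s with
  | zero =>
    have h : Function.update (Function.update s i 0) j (s j + s i * (w.length + 2)) = s := by
      rw [← hn, zero_mul, add_zero]
      funext x
      by_cases hx : x = j
      · subst hx; simp
      · by_cases hx' : x = i
        · subst hx'; simp [hx, hn]
        · simp [hx, hx']
    rw [h]
    exact Run.loop0 i _ s hn.symm
  | succ n ih =>
    rw [← hn] at hB
    have hB' : s j + w.length + 2 + n * (w.length + 2) ≤ B := by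
      have : (n + 1) * (w.length + 2) = n * (w.length + 2) + (w.length + 2) := by ring
      omega
    set s1 := Function.update s i (s i - 1) with hs1
    have e1 : s1 j = s j := by simp [hs1, hij.symm]
    set s2 := Function.update s1 j (s1 j + w.length) with hs2
    set s3 := Function.update s2 j (s2 j + 1) with hs3
    set s4 := Function.update s3 j (s3 j + 1) with hs4
    have e2 : s2 j = s j + w.length := by simp [hs2, e1]
    have e3 : s3 j = s j + w.length + 1 := by simp [hs3, e2]
    have e4 : s4 j = s j + w.length + 2 := by simp [hs4, e3]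
    have e5 : s4 i = n := by
      simp only [hs4, hs3, hs2, hs1, Function.update_of_ne hij, Function.update_self]
      omega
    have h1 := ih s4 (by rw [e4, e5]; exact hB') e5.symm
    have h2 : Function.update (Function.update s4 i 0) j (s4 j + s4 i * (w.length + 2)) =
        Function.update (Function.update s i 0) j (s j + s i * (w.length + 2)) := by
      funext x
      by_cases hx : x = j
      · subst hx
        simp only [Function.update_self]
        rw [e4, e5, ← hn]
        ring
      · by_cases hx' : x = i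
        · subst hx'; simp [hx]
        · simp [hx, hx', hs4, hs3, hs2, hs1]
    rw [h2] at h1
    have b0 : 0 ≤ n * (w.length + 2) := Nat.zero_le _
    refine Run.loopS i _ s s4 _ (by omega) ?_ h1
    exact Run.seq _ _ _ s1 _ (Run.dec i s) (Run.seq _ _ _ s2 _ (Run.len j s1 (by rw [e1]; omega))
      (Run.seq _ _ _ s3 _ (Run.inc j s2 (by rw [e2]; omega)) (Run.inc j s3 (by rw [e3]; omega))))

theorem mTOP (hTM : StTM) (hPD : StPD) (hCB : StCB) (hCS : StCS) (hCR : StCR) : StTOP := by
  intro α _ F Rf L hF hR hL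
  have hE : ∀ G : VF α, E2 G → Comp G := by
    intro G h
    induction h with
    | zero => exact (@hCB α _).1
    | succ F _ ih => exact (hCS F ih).1
    | get i => exact (@hCB α _).2.1 i
    | len => exact (@hCB α _).2.2
    | letr F _ ih => exact (hCS F ih).2
    | nrec F G H K c _ _ _ hb ihF ihG ihH => exact hCR F G H K c ihF ihG ihH hb
  obtain ⟨K1, c1, h1⟩ := (comp_iff _).1 (hE _ hR)
  obtain ⟨K2, c2, h2⟩ := (comp_iff _).1 (hE _ hF)
  obtain ⟨c, hc1, hc2, hc⟩ : ∃ c, c1 ≤ c ∧ c2 ≤ c ∧ 1 ≤ c :=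
    ⟨c1 + c2 + 1, by omega, by omega, by omega⟩
  have h1 := h1.mono le_rfl hc1
  have h2 := h2.mono (show K2 ≤ K2 + 1 by omega) hc2
  obtain ⟨P1, hP1⟩ := h1.2 (fun _ => 2) 3 5 (fun i _ => by omega) (by omega) (fun i _ => by omega)
  obtain ⟨P2, hP2⟩ := h2.2 (scons 1 (fun _ => 2)) 0 5
    (fun i _ => by
      match i with
      | 0 => change 1 < 5; omega
      | i + 1 => change 2 < 5; omega) (by omega)
    (fun i _ => by
      match i with
      | 0 => change 1 ≠ 0; omega
      | i + 1 => change 2 ≠ 0; omega)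
  set Bf : ℕ → ℕ := fun n => ((n + 2) ^ Rf n + Rf n + n + 2) ^ c with hBf
  set mul : Prog := Prog.loop 1 (Prog.seq (Prog.dec 1) (Prog.seq (Prog.len 4)
      (Prog.seq (Prog.inc 4) (Prog.inc 4)))) with hmul
  set mov : Prog := Prog.loop 4 (Prog.seq (Prog.dec 4) (Prog.inc 1)) with hmov
  set body : Prog := Prog.seq (Prog.dec 3) (Prog.seq mul mov) with hbody
  set P : Prog := Prog.seq P1 (Prog.seq (Prog.inc 1) (Prog.seq (Prog.loop 3 body) P2)) with hP
  have key : ∀ w : List α, ∃ s' : ℕ → ℕ, Run w (Bf w.length) P (fun _ => 0) s' ∧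
      (s' 0 ≠ 0 ↔ w ∈ L) := by
    intro w
    set n := w.length with hn
    set R := Rf n with hRdef
    set N := (n + 2) ^ R with hN
    set X := N + R + n + 2 with hX
    set B := Bf n with hB
    have hXB : X ≤ B := Nat.le_self_pow (by omega) _
    have hN0 : 0 < N := by positivity
    set z : ℕ → ℕ := fun _ => 0 with hz
    have hz0 : setR z 1 0 0 0 0 = z := setR_zero (fun _ _ => rfl)
    have hle : ∀ x r t : ℕ, x ≤ B → r ≤ B → t ≤ B → ∀ j, setR z 1 x 0 r t j ≤ B := by
      intro x r t hx hr ht j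
      unfold setR
      split_ifs
      · exact hx
      · exact Nat.zero_le _
      · exact hr
      · exact ht
      · exact Nat.zero_le _
    -- R
    have r1 : Run w B P1 z (setR z 1 0 0 R 0) := by
      have r := hP1 w z B rfl (fun _ _ => rfl) (fun _ => Nat.zero_le _) (by
        have e : sumK K1 (fun i => z ((fun _ => 2) i)) = 0 := by
          unfold sumK
          simp [hz]
        rw [e]
        exact Nat.pow_le_pow_left (by omega) c)
      have e2 : Function.update z 3 (Rf w.length) = setR z 1 0 0 R 0 := by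
        calc Function.update z 3 (Rf w.length) = Function.update (setR z 1 0 0 0 0) 3 R := by
              rw [hz0]
          _ = setR z 1 0 0 R 0 := upd_2 z 1 0 0 0 0 R
      rw [e2] at r
      exact r
    have r2 : Run w B (Prog.inc 1) (setR z 1 0 0 R 0) (setR z 1 1 0 R 0) := by
      have r := Run.inc (w := w) (B := B) 1 (setR z 1 0 0 R 0) (by rw [setR_0]; omega)
      rw [setR_0, upd_0] at r
      exact r
    have r3 : ∀ d k : ℕ, k + d = R → Run w B (Prog.loop 3 body) (setR z 1 ((n + 2) ^ k) 0 d 0)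
        (setR z 1 N 0 0 0) := by
      intro d
      induction d with
      | zero =>
        intro k hk
        have : k = R := by omega
        subst this
        exact Run.loop0 _ _ _ (setR_2 _ _ _ _ _ _)
      | succ d ih =>
        intro k hk
        have hpow : (n + 2) ^ (k + 1) ≤ N := Nat.pow_le_pow_right (by omega) (by omega)
        have hpow' : (n + 2) ^ k ≤ N := Nat.pow_le_pow_right (by omega) (by omega)
        have hk1 : (n + 2) ^ k * (n + 2) = (n + 2) ^ (k + 1) := (pow_succ _ _).symm
        refine Run.loopS 3 body _ (setR z 1 ((n + 2) ^ (k + 1)) 0 d 0) _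
          (by
            have : setR z 1 ((n + 2) ^ k) 0 (d + 1) 0 3 = d + 1 := setR_2 _ _ _ _ _ _
            omega) ?_ (ih (k + 1) (by omega))
        have q1 : Run w B (Prog.dec 3) (setR z 1 ((n + 2) ^ k) 0 (d + 1) 0)
            (setR z 1 ((n + 2) ^ k) 0 d 0) := by
          have r := Run.dec (w := w) (B := B) 3 (setR z 1 ((n + 2) ^ k) 0 (d + 1) 0)
          have e1 : setR z 1 ((n + 2) ^ k) 0 (d + 1) 0 3 = d + 1 := setR_2 _ _ _ _ _ _
          have e2 : Function.update (setR z 1 ((n + 2) ^ k) 0 (d + 1) 0) 3 d =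
            setR z 1 ((n + 2) ^ k) 0 d 0 := upd_2 _ _ _ _ _ _ _
          rw [e1, Nat.add_sub_cancel, e2] at r
          exact r
        have q2 : Run w B mul (setR z 1 ((n + 2) ^ k) 0 d 0)
            (setR z 1 0 0 d ((n + 2) ^ (k + 1))) := by
          have e1 : setR z 1 ((n + 2) ^ k) 0 d 0 4 = 0 := setR_3 _ _ _ _ _ _
          have e2 : ∀ x, Function.update (setR z 1 0 0 d 0) 4 x = setR z 1 0 0 d x :=
            fun x => upd_3 _ _ _ _ _ _ _
          have r := run_mul w B 1 4 (by omega) (setR z 1 ((n + 2) ^ k) 0 d 0)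
            (by rw [e1, setR_0, ← hn, hk1]; omega)
          rw [e1, setR_0, ← hn, hk1, upd_0, e2, zero_add] at r
          exact r
        have q3 : Run w B mov (setR z 1 0 0 d ((n + 2) ^ (k + 1)))
            (setR z 1 ((n + 2) ^ (k + 1)) 0 d 0) := by
          have e1 : setR z 1 0 0 d ((n + 2) ^ (k + 1)) 4 = (n + 2) ^ (k + 1) := setR_3 _ _ _ _ _ _
          have e2 : Function.update (setR z 1 0 0 d ((n + 2) ^ (k + 1))) 4 0 = setR z 1 0 0 d 0 :=
            upd_3 _ _ _ _ _ _ _
          have r := run_move w B 4 1 (by omega) (setR z 1 0 0 d ((n + 2) ^ (k + 1)))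
            (by rw [e1, setR_0]; omega)
          rw [e1, e2, setR_0, zero_add, upd_0] at r
          exact r
        exact Run.seq _ _ _ _ _ q1 (Run.seq _ _ _ _ _ q2 q3)
    have r3' := r3 R 0 (by omega)
    rw [pow_zero] at r3'
    have hctx : (fun i => setR z 1 N 0 0 0 (scons 1 (fun _ => 2) i)) = scons N (fun _ => 0) := by
      funext i
      match i with
      | 0 => exact setR_0 _ _ _ _ _ _
      | i + 1 => exact setR_1 _ _ _ _ _ _
    have hsum : sumK (K2 + 1) (scons N (fun _ => 0)) = N := by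
      unfold sumK
      rw [Finset.sum_range_succ']
      simp [scons]
    have r4 := hP2 w (setR z 1 N 0 0 0) B rfl (fun j hj => setR_ge _ _ _ _ _ hj)
      (hle N 0 0 (by omega) (Nat.zero_le _) (Nat.zero_le _)) (by
        rw [hctx, hsum]
        exact Nat.pow_le_pow_left (show w.length + N + 2 ≤ N + R + n + 2 by omega) c)
    rw [hctx] at r4
    refine ⟨_, Run.seq _ _ _ _ _ r1 (Run.seq _ _ _ _ _ r2 (Run.seq _ _ _ _ _ r3' r4)), ?_⟩
    rw [Function.update_self]
    exact hL w
  obtain ⟨M, hM⟩ := hPD P L Bf key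
  refine hTM M L Bf (fun n => (Rf n + 1) * Nat.log 2 (n + 2)) (2 * c) hM ?_
  intro n
  set l := Nat.log 2 (n + 2) with hl
  have hl1 : 1 ≤ l := Nat.log_pos (by norm_num) (by omega)
  have hn2 : n + 2 ≤ 2 ^ (2 * l) := by
    have h3 : n + 2 < 2 ^ (l + 1) := Nat.lt_pow_succ_log_self (by norm_num) _
    have h4 : 2 ^ (l + 1) ≤ 2 ^ (2 * l) := Nat.pow_le_pow_right (by norm_num) (by omega)
    omega
  set S := (Rf n + 1) * l with hS
  have a1 : (n + 2) ^ Rf n ≤ 2 ^ (2 * S) := by
    calc (n + 2) ^ Rf n ≤ (2 ^ (2 * l)) ^ Rf n := Nat.pow_le_pow_left hn2 _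
      _ = 2 ^ (2 * l * Rf n) := by rw [← pow_mul]
      _ ≤ 2 ^ (2 * S) := Nat.pow_le_pow_right (by norm_num) (by rw [hS]; nlinarith)
  have a2 : Rf n ≤ 2 ^ (2 * S) := by
    calc Rf n ≤ 2 ^ Rf n := Nat.lt_two_pow_self.le
      _ ≤ 2 ^ (2 * S) := Nat.pow_le_pow_right (by norm_num) (by rw [hS]; nlinarith)
  have a3 : n + 2 ≤ 2 ^ (2 * S) :=
    hn2.trans (Nat.pow_le_pow_right (by norm_num) (by rw [hS]; nlinarith))
  calc Bf n = ((n + 2) ^ Rf n + Rf n + n + 2) ^ c := rfl
    _ ≤ (2 ^ (2 * S + 2)) ^ c := Nat.pow_le_pow_left (by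
        have : 2 ^ (2 * S + 2) = 4 * 2 ^ (2 * S) := by ring
        omega) c
    _ = 2 ^ (2 * c * S + 2 * c) := by rw [← pow_mul]; congr 1; ring

end Pool.Agent.Helper78.DC
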