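import Pool.Agent.Helper78.DC.Base

/-! Bounded recursion. -/

set_option autoImplicit false

namespace Pool.Agent.Helper78.DC

open Pool.Agent.Helper73.DC

variable {α : Type} [Fintype α]

/-- the registers with the four local registers set -/
def setR (s : ℕ → ℕ) (b x y z t : ℕ) : ℕ → ℕ := fun j =>
  if j = b then x else if j = b + 1 then y else if j = b + 2 then z else if j = b + 3 then t else s j

theorem setR_0 (s : ℕ → ℕ) (b x y z t : ℕ) : setR s b x y z t b = x := by simp [setR]
theorem setR_1 (s : ℕ → ℕ) (b x y z t : ℕ) : setR s b x y z t (b + 1) = y := by simp [setR]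
theorem setR_2 (s : ℕ → ℕ) (b x y z t : ℕ) : setR s b x y z t (b + 2) = z := by simp [setR]
theorem setR_3 (s : ℕ → ℕ) (b x y z t : ℕ) : setR s b x y z t (b + 3) = t := by simp [setR]

theorem setR_lt (s : ℕ → ℕ) {b j : ℕ} (x y z t : ℕ) (h : j < b) : setR s b x y z t j = s j := by
  unfold setR
  rw [if_neg (by omega), if_neg (by omega), if_neg (by omega), if_neg (by omega)]

theorem setR_ge (s : ℕ → ℕ) {b j : ℕ} (x y z t : ℕ) (h : b + 4 ≤ j) : setR s b x y z t j = s j := by
  unfold setR
  rw [if_neg (by omega), if_neg (by omega), if_neg (by omega), if_neg (by omega)]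

theorem upd_0 (s : ℕ → ℕ) (b x y z t x' : ℕ) :
    Function.update (setR s b x y z t) b x' = setR s b x' y z t := by
  funext j
  by_cases hj : j = b
  · subst hj; simp [setR]
  · simp [setR, hj]

theorem upd_1 (s : ℕ → ℕ) (b x y z t y' : ℕ) :
    Function.update (setR s b x y z t) (b + 1) y' = setR s b x y' z t := by
  funext j
  by_cases hj : j = b + 1
  · subst hj; simp [setR]
  · simp [setR, hj]

theorem upd_2 (s : ℕ → ℕ) (b x y z t z' : ℕ) :
    Function.update (setR s b x y z t) (b + 2) z' = setR s b x y z' t := by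
  funext j
  by_cases hj : j = b + 2
  · subst hj; simp [setR]
  · simp [setR, hj]

theorem upd_3 (s : ℕ → ℕ) (b x y z t t' : ℕ) :
    Function.update (setR s b x y z t) (b + 3) t' = setR s b x y z t' := by
  funext j
  by_cases hj : j = b + 3
  · subst hj; simp [setR]
  · simp [setR, hj]

theorem upd_lt (s : ℕ → ℕ) {b o : ℕ} (x y z t u : ℕ) (h : o < b) :
    Function.update (setR s b x y z t) o u = setR (Function.update s o u) b x y z t := by
  funext j
  by_cases hj : j = o
  · subst hj
    rw [Function.update_self, setR_lt _ _ _ _ _ h, Function.update_self]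
  · rw [Function.update_of_ne hj]
    unfold setR
    rw [Function.update_of_ne hj]

theorem setR_zero {s : ℕ → ℕ} {b : ℕ} (h : ∀ j, b ≤ j → s j = 0) : setR s b 0 0 0 0 = s := by
  funext j
  unfold setR
  split_ifs with h1 h2 h3 h4
  · exact (h j (by omega)).symm
  · exact (h j (by omega)).symm
  · exact (h j (by omega)).symm
  · exact (h j (by omega)).symm
  · rfl

theorem mCR : StCR := by
  intro α _ F G H K0 c0 hF hG hH hbd
  obtain ⟨KF, cF, hF⟩ := (comp_iff F).1 hF
  obtain ⟨KG, cG, hG⟩ := (comp_iff G).1 hG
  obtain ⟨KH, cH, hH⟩ := (comp_iff H).1 hH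
  obtain ⟨K, hK0, hKF, hKG, hKH, hK2⟩ : ∃ K, K0 ≤ K ∧ KF ≤ K ∧ KG ≤ K ∧ KH ≤ K ∧ 2 ≤ K :=
    ⟨K0 + KF + KG + KH + 2, by omega, by omega, by omega, by omega, by omega⟩
  obtain ⟨c, hc0, hcF, hcG, hcH, hc1⟩ : ∃ c, c0 ≤ c ∧ cF ≤ c ∧ cG ≤ c ∧ cH ≤ c ∧ 1 ≤ c :=
    ⟨c0 + cF + cG + cH + 1, by omega, by omega, by omega, by omega, by omega⟩
  have hF := hF.mono hKF hcF
  have hG := hG.mono hKG hcG
  have hH := hH.mono hKH hcH
  have hbd : ∀ w v y, y ≤ H w v → prec F G w v y ≤ (w.length + sumK K v + 2) ^ c := by
    intro w v y hy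
    refine (hbd w v y hy).trans ?_
    have := sumK_mono hK0 v
    calc (w.length + sumK K0 v + 2) ^ c0 ≤ (w.length + sumK K v + 2) ^ c0 :=
          Nat.pow_le_pow_left (by omega) _
      _ ≤ _ := Nat.pow_le_pow_right (by omega) hc0
  have hHle := fun w v => hH.val_le hc1 w v
  obtain ⟨sF, pF⟩ := hF
  obtain ⟨sG, pG⟩ := hG
  obtain ⟨sH, pH⟩ := hH
  -- support of the recursion
  have sP : ∀ (w : List α) (v v' : ℕ → ℕ), (∀ i < K, v i = v' i) → ∀ y,
      prec F G w v y = prec F G w v' y := by
    intro w v v' hv y
    induction y with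
    | zero => exact sF w v v' hv
    | succ y ih =>
      change G w _ = G w _
      apply sG
      intro i hi
      match i, hi with
      | 0, _ => rfl
      | 1, _ => exact ih
      | i + 2, hi => exact hv i (by omega)
  refine (comp_iff _).2 ⟨K, (c + 2) * (c + 1), ?_, ?_⟩
  · intro w v v' hv
    show prec F G w v (H w v) = prec F G w v' (H w v')
    rw [sH w v v' hv]
    exact sP w v v' hv _
  intro ρ out base hρ1 hout hρ2
  obtain ⟨PH, hPH⟩ := pH ρ base (base + 4) (fun i hi => by have := hρ1 i hi; omega) (by omega)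
    (fun i hi => by have := hρ1 i hi; omega)
  obtain ⟨PF, hPF⟩ := pF ρ (base + 2) (base + 4) (fun i hi => by have := hρ1 i hi; omega) (by omega)
    (fun i hi => by have := hρ1 i hi; omega)
  obtain ⟨PG, hPG⟩ := pG (scons (base + 1) (scons (base + 2) ρ)) (base + 3) (base + 4)
    (fun i hi => by
      match i, hi with
      | 0, _ => change base + 1 < base + 4; omega
      | 1, _ => change base + 2 < base + 4; omega
      | i + 2, hi => change ρ i < base + 4; have := hρ1 i (by omega); omega) (by omega)
    (fun i hi => by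
      match i, hi with
      | 0, _ => change base + 1 ≠ base + 3; omega
      | 1, _ => change base + 2 ≠ base + 3; omega
      | i + 2, hi => change ρ i ≠ base + 3; have := hρ1 i (by omega); omega)
  set body : Prog := Prog.seq (Prog.dec base) (Prog.seq PG (Prog.seq
    (Prog.loop (base + 2) (Prog.dec (base + 2))) (Prog.seq
    (Prog.loop (base + 3) (Prog.seq (Prog.dec (base + 3)) (Prog.inc (base + 2))))
    (Prog.inc (base + 1))))) with hbody
  refine ⟨Prog.seq PH (Prog.seq PF (Prog.seq (Prog.loop base body) (Prog.seq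
    (Prog.loop (base + 2) (Prog.seq (Prog.dec (base + 2)) (Prog.inc out)))
    (Prog.loop (base + 1) (Prog.dec (base + 1)))))), ?_⟩
  intro w s B hs0 hsb hsB hB
  set v : ℕ → ℕ := fun i => s (ρ i) with hv
  set X := w.length + sumK K v + 2 with hX
  set h := H w v with hh
  have hX2 : 2 ≤ X := by omega
  have hXc : X ^ c ≤ B := le_trans (Nat.pow_le_pow_right (by omega) (by nlinarith)) hB
  have hhX : h ≤ X ^ c := hHle w v
  have hpX : ∀ y, y ≤ h → prec F G w v y ≤ X ^ c := fun y hy => hbd w v y hy
  have hXG : (X + X ^ c + X ^ c) ^ c ≤ B := by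
    have h1 : X ≤ X ^ c := Nat.le_self_pow (by omega) _
    have h2 : X + X ^ c + X ^ c ≤ X ^ (c + 2) := by
      have h3 : X ^ (c + 2) = X ^ c * (X * X) := by ring
      have h4 : 4 ≤ X * X := by nlinarith
      rw [h3]
      nlinarith
    calc (X + X ^ c + X ^ c) ^ c ≤ (X ^ (c + 2)) ^ c := Nat.pow_le_pow_left h2 c
      _ = X ^ ((c + 2) * c) := by rw [← pow_mul]
      _ ≤ X ^ ((c + 2) * (c + 1)) := Nat.pow_le_pow_right (by omega) (by nlinarith)
      _ ≤ B := hB
  -- the states
  have hctx : ∀ x y z t : ℕ, ∀ i < K, setR s base x y z t (ρ i) = v i := by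
    intro x y z t i hi
    rw [setR_lt s x y z t (hρ1 i hi)]
  have hle : ∀ x y z t : ℕ, x ≤ B → y ≤ B → z ≤ B → t ≤ B → ∀ j, setR s base x y z t j ≤ B := by
    intro x y z t hx hy hz ht j
    unfold setR
    split_ifs
    · exact hx
    · exact hy
    · exact hz
    · exact ht
    · exact hsB j
  have hz : ∀ x y z t : ℕ, ∀ j, base + 4 ≤ j → setR s base x y z t j = 0 := by
    intro x y z t j hj
    rw [setR_ge s x y z t hj]
    exact hsb j (by omega)
  have hs00 : setR s base 0 0 0 0 = s := setR_zero hsb
  -- H
  have r1 : Run w B PH (setR s base 0 0 0 0) (setR s base h 0 0 0) := by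
    have r := hPH w (setR s base 0 0 0 0) B (setR_0 _ _ _ _ _ _) (hz 0 0 0 0)
      (hle 0 0 0 0 (Nat.zero_le _) (Nat.zero_le _) (Nat.zero_le _) (Nat.zero_le _))
      (by rw [sumK_congr (hctx 0 0 0 0)]; exact hXc)
    rw [sH w _ v (hctx 0 0 0 0), upd_0] at r
    exact r
  -- F
  have r2 : Run w B PF (setR s base h 0 0 0) (setR s base h 0 (prec F G w v 0) 0) := by
    have r := hPF w (setR s base h 0 0 0) B (setR_2 _ _ _ _ _ _) (hz h 0 0 0)
      (hle h 0 0 0 (hhX.trans hXc) (Nat.zero_le _) (Nat.zero_le _) (Nat.zero_le _))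
      (by rw [sumK_congr (hctx h 0 0 0)]; exact hXc)
    rw [sF w _ v (hctx h 0 0 0), upd_2] at r
    exact r
  -- the loop
  have r3 : ∀ d y : ℕ, y + d = h → Run w B (Prog.loop base body)
      (setR s base d y (prec F G w v y) 0) (setR s base 0 h (prec F G w v h) 0) := by
    intro d
    induction d with
    | zero =>
      intro y hy
      have : y = h := by omega
      subst this
      exact Run.loop0 _ _ _ (setR_0 _ _ _ _ _ _)
    | succ d ih =>
      intro y hy
      have hy' : y ≤ h := by omega
      have hy1 : y + 1 ≤ h := by omega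
      have hpy := hpX y hy'
      have hpy1 := hpX (y + 1) hy1
      set p := prec F G w v y with hp
      have hp1 : prec F G w v (y + 1) = G w (scons y (scons p v)) := rfl
      refine Run.loopS base body _ (setR s base d (y + 1) (prec F G w v (y + 1)) 0) _
        (by rw [setR_0]; omega) ?_ (ih (y + 1) (by omega))
      rw [hbody]
      -- dec
      have q1 : Run w B (Prog.dec base) (setR s base (d + 1) y p 0) (setR s base d y p 0) := by
        have := Run.dec (w := w) (B := B) base (setR s base (d + 1) y p 0)
        rw [setR_0, upd_0, Nat.add_sub_cancel] at this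
        exact this
      -- G
      have hcG : ∀ i < K, setR s base d y p 0 (scons (base + 1) (scons (base + 2) ρ) i) =
          scons y (scons p v) i := by
        intro i hi
        match i, hi with
        | 0, _ => exact setR_1 _ _ _ _ _ _
        | 1, _ => exact setR_2 _ _ _ _ _ _
        | i + 2, hi => exact hctx d y p 0 i (by omega)
      have hsum : sumK K (scons y (scons p v)) ≤ y + p + sumK K v := by
        obtain ⟨K', rfl⟩ : ∃ K', K = K' + 2 := ⟨K - 2, by omega⟩
        have h1 : sumK (K' + 2) (scons y (scons p v)) = sumK K' v + p + y := by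
          unfold sumK
          rw [Finset.sum_range_succ', Finset.sum_range_succ']
          rfl
        have h2 := sumK_mono (show K' ≤ K' + 2 by omega) v
        omega
      have q2 : Run w B PG (setR s base d y p 0)
          (setR s base d y p (prec F G w v (y + 1))) := by
        have r := hPG w (setR s base d y p 0) B (setR_3 _ _ _ _ _ _) (hz d y p 0)
          (hle d y p 0 (by omega) (by omega) (by omega) (Nat.zero_le _))
          (by
            rw [sumK_congr hcG]
            refine le_trans (Nat.pow_le_pow_left ?_ c) hXG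
            omega)
        rw [sG w _ (scons y (scons p v)) hcG, upd_3, ← hp1] at r
        exact r
      set p1 := prec F G w v (y + 1) with hp1'
      -- clear acc
      have q3 : Run w B (Prog.loop (base + 2) (Prog.dec (base + 2))) (setR s base d y p p1)
          (setR s base d y 0 p1) := by
        have r := run_clear w B (base + 2) (setR s base d y p p1)
        rw [upd_2] at r
        exact r
      -- move
      have q4 : Run w B (Prog.loop (base + 3) (Prog.seq (Prog.dec (base + 3)) (Prog.inc (base + 2))))
          (setR s base d y 0 p1) (setR s base d y p1 0) := by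
        have r := run_move w B (base + 3) (base + 2) (by omega) (setR s base d y 0 p1)
          (by rw [setR_2, setR_3]; omega)
        rw [upd_3, upd_2, setR_2, setR_3, zero_add] at r
        exact r
      have q5 : Run w B (Prog.inc (base + 1)) (setR s base d y p1 0)
          (setR s base d (y + 1) p1 0) := by
        have r := Run.inc (w := w) (B := B) (base + 1) (setR s base d y p1 0)
          (by rw [setR_1]; omega)
        rw [setR_1, upd_1] at r
        exact r
      exact Run.seq _ _ _ _ _ q1 (Run.seq _ _ _ _ _ q2 (Run.seq _ _ _ _ _ q3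
        (Run.seq _ _ _ _ _ q4 q5)))
  -- output
  have hph := hpX h le_rfl
  set p := prec F G w v h with hp
  have r4 : Run w B (Prog.loop (base + 2) (Prog.seq (Prog.dec (base + 2)) (Prog.inc out)))
      (setR s base 0 h p 0) (setR (Function.update s out p) base 0 h 0 0) := by
    have r := run_move w B (base + 2) out (by omega) (setR s base 0 h p 0)
      (by rw [setR_2, setR_lt _ _ _ _ _ hout, hs0]; omega)
    rw [upd_2, setR_2, setR_lt _ _ _ _ _ hout, hs0, zero_add, upd_lt _ _ _ _ _ _ hout] at r
    exact r
  have r5 : Run w B (Prog.loop (base + 1) (Prog.dec (base + 1)))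
      (setR (Function.update s out p) base 0 h 0 0) (Function.update s out p) := by
    have r := run_clear w B (base + 1) (setR (Function.update s out p) base 0 h 0 0)
    rw [upd_1, setR_zero (s := Function.update s out p)] at r
    · exact r
    · intro j hj
      rw [Function.update_of_ne (by omega)]
      exact hsb j hj
  rw [hs00] at r1
  exact Run.seq _ _ _ _ _ r1 (Run.seq _ _ _ _ _ r2 (Run.seq _ _ _ _ _ (r3 h 0 (by omega))
    (Run.seq _ _ _ _ _ r4 r5)))

end Pool.Agent.Helper78.DC
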