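import Pool.Agent.Helper73.DC.St1

/-! Programs: bounds, clearing and moving registers. -/

set_option autoImplicit false

namespace Pool.Agent.Helper78.DC

open Pool.Agent.Helper73.DC

variable {α : Type} [Fintype α]

theorem run_bound {w : List α} {B : ℕ} {P : Prog} {s t : ℕ → ℕ} (h : Run w B P s t) :
    (∀ j, s j ≤ B) → ∀ j, t j ≤ B := by
  induction h with
  | inc i s hi =>
    intro hs j
    by_cases hj : j = i
    · subst hj; simpa using hi
    · simpa [hj] using hs j
  | dec i s =>
    intro hs j
    by_cases hj : j = i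
    · subst hj
      have := hs j
      simp only [Function.update_self]
      omega
    · simpa [hj] using hs j
  | seq P R s t u _ _ ih1 ih2 => intro hs; exact ih2 (ih1 hs)
  | loop0 i P s _ => intro hs; exact hs
  | loopS i P s t u _ _ _ ih1 ih2 => intro hs; exact ih2 (ih1 hs)
  | letr i s hi =>
    intro hs j
    by_cases hj : j = i
    · subst hj; simpa using hi
    · simpa [hj] using hs j
  | len i s hi =>
    intro hs j
    by_cases hj : j = i
    · subst hj; simpa using hi
    · simpa [hj] using hs j

/-- clearing a register -/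
theorem run_clear (w : List α) (B i : ℕ) (s : ℕ → ℕ) :
    Run w B (Prog.loop i (Prog.dec i)) s (Function.update s i 0) := by
  obtain ⟨n, hn⟩ : ∃ n, n = s i := ⟨_, rfl⟩
  induction n generalizing s with
  | zero =>
    have h : Function.update s i 0 = s := by rw [hn, Function.update_eq_self]
    rw [h]
    exact Run.loop0 i _ s hn.symm
  | succ n ih =>
    have h1 := ih (Function.update s i (s i - 1)) (by simp only [Function.update_self]; omega)
    rw [Function.update_idem] at h1
    exact Run.loopS i _ s _ _ (by omega) (Run.dec i s) h1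

/-- moving a register -/
theorem run_move (w : List α) (B i j : ℕ) (hij : i ≠ j) (s : ℕ → ℕ) (hB : s j + s i ≤ B) :
    Run w B (Prog.loop i (Prog.seq (Prog.dec i) (Prog.inc j))) s
      (Function.update (Function.update s i 0) j (s j + s i)) := by
  obtain ⟨n, hn⟩ : ∃ n, n = s i := ⟨_, rfl⟩
  induction n generalizing s with
  | zero =>
    have h : Function.update (Function.update s i 0) j (s j + s i) = s := by
      rw [← hn, add_zero]
      funext x
      by_cases hx : x = j
      · subst hx; simp
      · by_cases hx' : x = i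
        · subst hx'; simp [hx, hn]
        · simp [hx, hx']
    rw [h]
    exact Run.loop0 i _ s hn.symm
  | succ n ih =>
    set s1 := Function.update s i (s i - 1) with hs1
    set s2 := Function.update s1 j (s1 j + 1) with hs2
    have e1 : s1 j = s j := by simp [hs1, hij.symm]
    have e2 : s2 i = s i - 1 := by simp [hs2, hs1, hij]
    have e3 : s2 j = s j + 1 := by simp [hs2, e1]
    have h1 := ih s2 (by rw [e2, e3]; omega) (by rw [e2]; omega)
    have h2 : Function.update (Function.update s2 i 0) j (s2 j + s2 i) =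
        Function.update (Function.update s i 0) j (s j + s i) := by
      funext x
      by_cases hx : x = j
      · subst hx
        simp only [Function.update_self]
        rw [e2, e3]
        omega
      · by_cases hx' : x = i
        · subst hx'; simp [hx]
        · simp [hx, hx', hs2, hs1]
    rw [h2] at h1
    refine Run.loopS i _ s s2 _ (by omega) ?_ h1
    exact Run.seq _ _ _ s1 _ (Run.dec i s) (Run.inc j s1 (by rw [e1]; omega))

/-- computability with explicit constants -/
def CompAt (K c : ℕ) (F : VF α) : Prop :=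
  Supp K F ∧ ∀ (ρ : ℕ → ℕ) (out base : ℕ), (∀ i < K, ρ i < base) → out < base →
    (∀ i < K, ρ i ≠ out) →
    ∃ P : Prog, ∀ (w : List α) (s : ℕ → ℕ) (B : ℕ), s out = 0 → (∀ j, base ≤ j → s j = 0) →
      (∀ j, s j ≤ B) → (w.length + sumK K (fun i => s (ρ i)) + 2) ^ c ≤ B →
      Run w B P s (Function.update s out (F w (fun i => s (ρ i))))

theorem comp_iff (F : VF α) : Comp F ↔ ∃ K c, CompAt K c F := Iff.rfl

theorem sumK_mono {K K' : ℕ} (h : K ≤ K') (v : ℕ → ℕ) : sumK K v ≤ sumK K' v :=
  Finset.sum_le_sum_of_subset (Finset.range_mono h)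

theorem sumK_congr {K : ℕ} {v v' : ℕ → ℕ} (h : ∀ i < K, v i = v' i) : sumK K v = sumK K v' :=
  Finset.sum_congr rfl (fun i hi => h i (Finset.mem_range.1 hi))

theorem le_sumK {K i : ℕ} (h : i < K) (v : ℕ → ℕ) : v i ≤ sumK K v :=
  Finset.single_le_sum (f := v) (fun j _ => Nat.zero_le _) (Finset.mem_range.2 h)

theorem CompAt.mono {K c K' c' : ℕ} {F : VF α} (h : CompAt K c F) (hK : K ≤ K') (hc : c ≤ c') :
    CompAt K' c' F := by
  obtain ⟨hs, hp⟩ := h
  refine ⟨fun w v v' hv => hs w v v' (fun i hi => hv i (lt_of_lt_of_le hi hK)), ?_⟩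
  intro ρ out base h1 h2 h3
  obtain ⟨P, hP⟩ := hp ρ out base (fun i hi => h1 i (lt_of_lt_of_le hi hK)) h2
    (fun i hi => h3 i (lt_of_lt_of_le hi hK))
  refine ⟨P, fun w s B h4 h5 h6 h7 => hP w s B h4 h5 h6 (le_trans ?_ h7)⟩
  have := sumK_mono hK (fun i => s (ρ i))
  calc (w.length + sumK K (fun i => s (ρ i)) + 2) ^ c
      ≤ (w.length + sumK K' (fun i => s (ρ i)) + 2) ^ c := Nat.pow_le_pow_left (by omega) c
    _ ≤ _ := Nat.pow_le_pow_right (by omega) hc

/-- the value of a computable function -/
theorem CompAt.val_le {K c : ℕ} {F : VF α} (h : CompAt K c F) (hc : 1 ≤ c) (w : List α)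
    (v : ℕ → ℕ) : F w v ≤ (w.length + sumK K v + 2) ^ c := by
  obtain ⟨hs, hp⟩ := h
  set ρ : ℕ → ℕ := fun i => if i < K then i else K + 1 with hρ
  obtain ⟨P, hP⟩ := hp ρ K (K + 1) (fun i hi => by simp only [hρ, if_pos hi]; omega) (by omega)
    (fun i hi => by simp only [hρ, if_pos hi]; omega)
  set s : ℕ → ℕ := fun j => if j < K then v j else 0 with hsdef
  have e : ∀ i < K, s (ρ i) = v i := by
    intro i hi
    simp only [hρ, hsdef, if_pos hi]
  have e1 : sumK K (fun i => s (ρ i)) = sumK K v := sumK_congr e
  have hpow : w.length + sumK K v + 2 ≤ (w.length + sumK K v + 2) ^ c :=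
    Nat.le_self_pow (by omega) _
  have hsB : ∀ j, s j ≤ (w.length + sumK K v + 2) ^ c := by
    intro j
    simp only [hsdef]
    split_ifs with hj
    · have := le_sumK hj v
      omega
    · exact Nat.zero_le _
  have hr := hP w s ((w.length + sumK K v + 2) ^ c) (by simp [hsdef])
    (fun j hj => by simp only [hsdef]; rw [if_neg (by omega)]) hsB (by rw [e1])
  have hb := run_bound hr hsB K
  rw [Function.update_self, hs w _ v e] at hb
  exact hb

end Pool.Agent.Helper78.DC
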